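import Pool.Agent.N642.Lip

/-!
# The Lipschitz Baumgartner axiom on the Cantor space is false in ZFC

Hence it does not follow from Martin's axiom and the failure of the continuum hypothesis.
-/

set_option autoImplicit false

open Set Cardinal

namespace Pool.Agent.Results.MP_93aff1_lc.LipschitzFails

/-- `A ⊆ 2^ω` is `ℵ₁`-dense: `|A ∩ U| = ℵ₁` for every nonempty open set `U ⊆ 2^ω`. -/
def AlephOneDense (A : Set (ℕ → Bool)) : Prop :=
  ∀ U : Set (ℕ → Bool), IsOpen U → U.Nonempty → #(A ∩ U : Set (ℕ → Bool)) = ℵ₁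

/-- `f : 2^ω → 2^ω` is Lipschitz with constant `1`: if `x` and `y` agree below `k`, then `f x` and
`f y` agree below `k`. -/
def IsLip (f : (ℕ → Bool) → (ℕ → Bool)) : Prop :=
  ∀ (k : ℕ) (x y : ℕ → Bool), (∀ i < k, x i = y i) → ∀ i < k, f x i = f y i

/-- The axiom `BA_Lip(2^ω)`: for all `ℵ₁`-dense `A, B ⊆ 2^ω` there is a Lipschitz function
`f : 2^ω → 2^ω` whose restriction to `A` is an injection of `A` into `B`. -/
def BALip : Prop :=
  ∀ A B : Set (ℕ → Bool), AlephOneDense A → AlephOneDense B →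
    ∃ f : (ℕ → Bool) → (ℕ → Bool), IsLip f ∧ InjOn f A ∧ f '' A ⊆ B

/-- For all large `k`: if `x` and `y` agree below `h k`, then `f x` and `f y` agree below `k`.
(Lipschitz functions with constant `1` satisfy this for `h k = k`, Lipschitz functions with
arbitrary constants satisfy it for `h k = 2 * k`.) -/
def HasModulus (h : ℕ → ℕ) (f : (ℕ → Bool) → (ℕ → Bool)) : Prop :=
  ∃ K : ℕ, ∀ k ≥ K, ∀ x y : ℕ → Bool, (∀ i < h k, x i = y i) → ∀ i < k, f x i = f y i

/-- The axiom `BA_Lip(2^ω)` is false. Moreover, for every `h : ω → ω` there are `ℵ₁`-dense sets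
`A, B ⊆ 2^ω` such that no function with modulus of continuity `h` maps `A` injectively into `B`. -/
theorem result : ¬ BALip ∧
    ∀ h : ℕ → ℕ, ∃ A B : Set (ℕ → Bool), AlephOneDense A ∧ AlephOneDense B ∧
      ∀ f : (ℕ → Bool) → (ℕ → Bool), HasModulus h f → ¬ (InjOn f A ∧ f '' A ⊆ B) := by
  have key : ∀ h : ℕ → ℕ, ∃ A B : Set (ℕ → Bool), AlephOneDense A ∧ AlephOneDense B ∧
      ∀ f : (ℕ → Bool) → (ℕ → Bool), HasModulus h f → ¬ (InjOn f A ∧ f '' A ⊆ B) := fun h =>
    Pool.Agent.N642.Lip.main (α := Bool) h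
  refine ⟨fun hBA => ?_, key⟩
  obtain ⟨A, B, hA, hB, hAB⟩ := key fun k => k
  obtain ⟨f, hf, h1, h2⟩ := hBA A B hA hB
  exact hAB f ⟨0, fun k _ => hf k⟩ ⟨h1, h2⟩

end Pool.Agent.Results.MP_93aff1_lc.LipschitzFails
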